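import Mathlib

/-!
# A cospectral mate of the complement of a multicone graph

The complement of the join of `K₂` and `C₆` (the triangular prism with two isolated vertices) is
cospectral with the graph on `8` vertices formed by two adjacent vertices with two common neighbours
and two further pendant neighbours each.
-/

namespace Pool.Agent.Results.MP_cd2ba9_co.HexagonMate

open Matrix

/-- The join of two graphs: their disjoint union with all edges between them. -/
def join {V W : Type*} (G : SimpleGraph V) (H : SimpleGraph W) : SimpleGraph (V ⊕ W) where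
  Adj
    | .inl a, .inl b => G.Adj a b
    | .inr a, .inr b => H.Adj a b
    | .inl _, .inr _ => True
    | .inr _, .inl _ => True
  symm := ⟨by
    rintro (a | a) (b | b) h
    · exact SimpleGraph.Adj.symm (G := G) h
    · trivial
    · trivial
    · exact SimpleGraph.Adj.symm (G := H) h⟩
  loopless := ⟨by
    rintro (a | a) h
    · exact G.irrefl h
    · exact H.irrefl h⟩

/-- The disjoint union of `m` copies of a graph. -/
def copies {V : Type*} (m : ℕ) (G : SimpleGraph V) : SimpleGraph (Fin m × V) where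
  Adj x y := x.1 = y.1 ∧ G.Adj x.2 y.2
  symm := ⟨fun _ _ h => ⟨h.1.symm, h.2.symm⟩⟩
  loopless := ⟨fun _ h => G.irrefl h.2⟩

/-- The multicone graph: the join of `K_w` and `m` disjoint copies of the cycle `C_n`. -/
def multicone (w m n : ℕ) : SimpleGraph (Fin w ⊕ Fin m × Fin n) :=
  join (⊤ : SimpleGraph (Fin w)) (copies m (SimpleGraph.cycleGraph n))

open scoped Classical in
/-- The adjacency spectrum: the multiset of the eigenvalues of the real adjacency matrix, that is,
of the roots of its characteristic polynomial. -/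
noncomputable def spectrum {V : Type*} [Fintype V] (G : SimpleGraph V) : Multiset ℝ :=
  (G.adjMatrix ℝ).charpoly.roots

/-- The mate. -/
def mate : SimpleGraph (Fin 8) := SimpleGraph.fromRel fun i j =>
  (i, j) ∈ [((0 : Fin 8), (6 : Fin 8)), (1, 6), (2, 7), (3, 7), (4, 6), (4, 7), (5, 6), (5, 7),
    (6, 7)]

instance : DecidableRel mate.Adj := by
  unfold mate
  infer_instance

/-- The adjacency matrix of the complement of the multicone graph. -/
def A : Matrix (Fin 8) (Fin 8) ℤ := Matrix.of fun i j =>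
  if 2 ≤ (i : ℕ) ∧ 2 ≤ (j : ℕ) ∧ i ≠ j ∧ ((i : ℕ) + 1 ≠ j ∧ (j : ℕ) + 1 ≠ i) ∧
    ¬ ((i : ℕ) = 2 ∧ (j : ℕ) = 7) ∧ ¬ ((i : ℕ) = 7 ∧ (j : ℕ) = 2) then 1 else 0

/-- The adjacency matrix of the mate. -/
def B : Matrix (Fin 8) (Fin 8) ℤ := Matrix.of fun i j => if mate.Adj i j then 1 else 0

def S : Matrix (Fin 8) (Fin 8) ℤ := !![-10, 20, 5, 5, -5, -5, 0, 0;
  5, 5, -10, 20, -5, -5, 0, 0;
  21, 21, 1, 1, -8, -8, -2, 8;
  -5, -5, 0, 0, 25, -5, -10, 10;
  0, 0, -5, -5, -5, 25, 10, -10;
  1, 1, 21, 21, -8, -8, 8, -2;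
  -3, -3, -8, -8, 19, -11, 16, -4;
  -8, -8, -3, -3, -11, 19, -4, 16]

def T : Matrix (Fin 8) (Fin 8) ℤ := !![-6, 0, 5, 1, 2, 1, -1, -2;
  6, 0, 3, 2, 3, -1, 0, -1;
  0, -6, 1, 2, 1, 5, -2, -1;
  0, 6, -1, 3, 2, 3, -1, 0;
  0, 0, 1, 7, 4, 1, 1, -2;
  0, 0, 1, 4, 7, 1, -2, 1;
  0, 0, 2, -2, 2, 4, 8, 4;
  0, 0, 4, 2, -2, 2, 4, 8]

theorem S_mul_T : S * T = Matrix.of fun i j => if i = j then 180 else 0 := by
  decide +kernel

theorem A_mul_S : A * S = S * B := by
  decide +kernel

theorem charpoly_of_similar {n : Type*} [Fintype n] [DecidableEq n] {A B S T : Matrix n n ℝ}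
    (h1 : S * T = 1) (h : A * S = S * B) : A.charpoly = B.charpoly := by
  let u : (Matrix n n ℝ)ˣ := ⟨S, T, h1, mul_eq_one_comm.1 h1⟩
  have h3 : A = u.val * B * u⁻¹.val := by
    calc A = A * (S * T) := by rw [h1, mul_one]
      _ = A * S * T := by rw [mul_assoc]
      _ = S * B * T := by rw [h]
  rw [h3, Matrix.coe_units_inv]
  exact Matrix.charpoly_units_conj u B

/-- The two characteristic polynomials agree. -/
theorem charpoly_eq : (A.map (Int.castRingHom ℝ)).charpoly = (B.map (Int.castRingHom ℝ)).charpoly := by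
  refine charpoly_of_similar (S := S.map (Int.castRingHom ℝ))
    (T := (1 / 180 : ℝ) • T.map (Int.castRingHom ℝ)) ?_ ?_
  · rw [mul_smul_comm, ← Matrix.map_mul, S_mul_T]
    ext i j
    by_cases h : i = j
    · subst h
      simp
    · simp [h]
  · rw [← Matrix.map_mul, A_mul_S, Matrix.map_mul]

/-- The numbering of the vertices. -/
def e : Fin 2 ⊕ Fin 1 × Fin 6 ≃ Fin 8 where
  toFun
    | .inl a => ⟨a, by omega⟩
    | .inr x => ⟨2 + x.2, by omega⟩
  invFun i := if h : (i : ℕ) < 2 then .inl ⟨i, h⟩ else .inr (0, ⟨i - 2, by omega⟩)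
  left_inv := by
    intro x
    revert x
    decide
  right_inv := by
    intro x
    revert x
    decide

instance : DecidableRel (multicone 2 1 6).Adj := fun x y => by
  unfold multicone join copies
  match x, y with
  | .inl a, .inl b => exact inferInstanceAs (Decidable (a ≠ b))
  | .inr a, .inr b =>
    exact inferInstanceAs (Decidable (a.1 = b.1 ∧ (SimpleGraph.cycleGraph 6).Adj a.2 b.2))
  | .inl _, .inr _ => exact inferInstanceAs (Decidable True)
  | .inr _, .inl _ => exact inferInstanceAs (Decidable True)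

theorem A_spec : ∀ x y, A (e x) (e y) = if (multicone 2 1 6)ᶜ.Adj x y then 1 else 0 := by
  decide +kernel

theorem spectrum_eq {V : Type*} [Fintype V] [DecidableEq V] (G : SimpleGraph V)
    [h : DecidableRel G.Adj] : spectrum G = (G.adjMatrix ℝ).charpoly.roots := by
  unfold spectrum
  congr

/-- **The complement of a multicone graph need not be determined by its adjacency spectrum.** -/
theorem result : ∃ (w m n : ℕ) (_ : 1 ≤ w) (_ : 1 ≤ m) (_ : 3 ≤ n) (V : Type) (_ : Fintype V)
    (H : SimpleGraph V), spectrum H = spectrum (multicone w m n)ᶜ ∧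
      IsEmpty (H ≃g (multicone w m n)ᶜ) := by
  refine ⟨2, 1, 6, by norm_num, by norm_num, by norm_num, Fin 8, inferInstance, mate, ?_, ?_⟩
  · classical
    have h1 : mate.adjMatrix ℝ = B.map (Int.castRingHom ℝ) := by
      ext i j
      simp only [SimpleGraph.adjMatrix_apply, Matrix.map_apply, B, Matrix.of_apply]
      split_ifs <;> simp
    have h2 : Matrix.reindex e e ((multicone 2 1 6)ᶜ.adjMatrix ℝ) =
        A.map (Int.castRingHom ℝ) := by
      ext i j
      have h3 := A_spec (e.symm i) (e.symm j)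
      rw [Equiv.apply_symm_apply, Equiv.apply_symm_apply] at h3
      rw [Matrix.reindex_apply, Matrix.submatrix_apply, SimpleGraph.adjMatrix_apply,
        Matrix.map_apply, h3]
      split_ifs <;> simp
    have h4 : spectrum mate = (mate.adjMatrix ℝ).charpoly.roots := spectrum_eq mate
    have h5 : spectrum (multicone 2 1 6)ᶜ = ((multicone 2 1 6)ᶜ.adjMatrix ℝ).charpoly.roots :=
      spectrum_eq _
    rw [h4, h5, h1, ← charpoly_eq, ← h2, Matrix.charpoly_reindex]
  · refine ⟨fun f => ?_⟩
    -- the mate has no isolated vertex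
    have h1 : ∀ v : Fin 8, ∃ w, mate.Adj v w := by decide
    obtain ⟨w, hw⟩ := h1 (f.symm (.inl 0))
    have h2 := f.map_adj_iff.2 hw
    rw [RelIso.apply_symm_apply] at h2
    have h3 : ∀ x, ¬ (multicone 2 1 6)ᶜ.Adj (.inl 0) x := by decide
    exact h3 _ h2

end Pool.Agent.Results.MP_cd2ba9_co.HexagonMate
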